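import Pool.Agent.H48.V0T.S

/-!
# The excess of the last place is void: the finite lemma, statement

Two places `u, v` over the time and one slope-one place; `J`: their slopes at the exact point, `D`:
their own velocities, `c`: the own velocity of the slope-one place. `a, b, d`: the blocks of the
Hessian of the chart of the last place. If the graph of `J` is isotropic, then one closed combination
of the columns of `J` is closed.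
-/

set_option autoImplicit false

namespace Pool.NV48

open Finset Real
open Pool.Agent.H49.Ent Pool.Agent.H32.Dense Pool.STK Pool.KA Pool.PB Pool.GEN Pool.KSAT Pool.K2S

/-- The blocks of a Hessian: `a`, `b`, `d`. -/
structure Hs where
  a : Fin 2 → Fin 2 → ℝ
  b : Fin 2 → Fin 2 → ℝ
  d : Fin 2 → Fin 2 → ℝ

/-- `a + b Jᵀ + J bᵀ + J d Jᵀ`; `J j l`: the slope of the place `l` in the direction `j`; `b j l`. -/
def Hs.S (M : Hs) (J : Fin 2 → Fin 2 → ℝ) (j j' : Fin 2) : ℝ :=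
  M.a j j' + ∑ l, (M.b j l * J j' l + M.b j' l * J j l) + ∑ l, ∑ l', J j l * M.d l l' * J j' l'

/-- `(1, c)`. -/
def ec (c : ℝ) : Fin 2 → ℝ := ![1, c]

/-- **(NVL)** The finite lemma. -/
def NvLaw : Prop := ∃ N₀ : ℕ, ∃ m₀ : ℝ, 0 < m₀ ∧ ∀ K : ℝ, 1 ≤ K → ∀ δ : ℝ, 0 < δ → δ ≤ 1 →
  ∀ ε : ℝ, 0 ≤ ε → ε * K ^ N₀ ≤ δ ^ N₀ →
  ∀ {Ω Λ Γ : Type} [Fintype Ω] {p : Ω → ℝ} {L : Ω → Λ} {P : Ω → Γ} {c : Λ → ℝ}
    {D : Λ → Fin 2 → ℝ} {J : Γ → Fin 2 → Fin 2 → ℝ} {MP : Γ → Hs} {ML : Λ → Hs},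
    IsLaw p →
    -- the sizes
    (∀ ω, 0 < p ω → |c (L ω)| ≤ K ∧ (∀ l, |D (L ω) l| ≤ K) ∧ (∀ j l, |J (P ω) j l| ≤ K) ∧
      ∀ j l, |(MP (P ω)).a j l| ≤ K ∧ |(MP (P ω)).b j l| ≤ 1 ∧ |(MP (P ω)).d j l| ≤ 1 ∧
        (MP (P ω)).a j l = (MP (P ω)).a l j ∧ (MP (P ω)).d j l = (MP (P ω)).d l j) →
    (∀ ω, 0 < p ω → ∃ j l, 1 / 2 ≤ |(MP (P ω)).b j l| ∨ 1 / 2 ≤ |(MP (P ω)).d j l|) →
    -- the two matrices
    (∀ ω, 0 < p ω → ∀ j l, |(MP (P ω)).a j l - (ML (L ω)).a j l| ≤ ε ∧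
      |(MP (P ω)).b j l - (ML (L ω)).b j l| ≤ ε ∧ |(MP (P ω)).d j l - (ML (L ω)).d j l| ≤ ε) →
    -- the own velocities, the plane is isotropic
    (∀ ω, 0 < p ω → ∀ l, |∑ j, ec (c (L ω)) j * J (P ω) j l - D (L ω) l| ≤ ε) →
    (∀ ω, 0 < p ω → ∀ j j', |(MP (P ω)).S (J (P ω)) j j'| ≤ ε) →
    -- `c` is not concentrated given the point
    (∀ r : Γ → ℝ, Pe p (fun ω => |c (L ω) - r (P ω)| ≤ δ) ≤ 1 / 4) →
    ∃ (E : Ω → Prop) (i : Fin 2) (nP tP : Γ → Fin 2 → ℝ) (nL tL : Λ → Fin 2 → ℝ),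
      m₀ ≤ Pe p E ∧ (∀ x, nP x i = 1 ∧ ∀ l, |nP x l| ≤ 1) ∧ (∀ x, nL x i = 1 ∧ ∀ l, |nL x l| ≤ 1) ∧
      ∀ ω, 0 < p ω → E ω → (∀ j, |∑ l, J (P ω) j l * nP (P ω) l - tP (P ω) j| ≤ δ) ∧
        (∀ l, |nP (P ω) l - nL (L ω) l| ≤ δ) ∧ ∀ j, |tP (P ω) j - tL (L ω) j| ≤ δ

end Pool.NV48
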